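import Pool.Agent.H29.LipR
import Pool.Agent.H7.Erdos

namespace Pool.Agent.Results.MP_fe8a5b_an.Asq

open H29.LipR SimpleGraph

/-- Almost square real normed spaces. -/
def ASQ (X : Type*) [NormedAddCommGroup X] : Prop :=
  ∀ (k : ℕ) (x : Fin k → X), (∀ i, ‖x i‖ = 1) → ∀ ε : ℝ, 0 < ε →
    ∃ y : X, ‖y‖ = 1 ∧ ∀ i, ‖x i + y‖ ≤ 1 + ε ∧ ‖x i - y‖ ≤ 1 + ε

lemma pot {V : Type} (G : SimpleGraph V) (L : ℕ) (hg : ((L + 1 : ℕ) : ℕ∞) ≤ G.egirth)
    {p q : V} (h : G.Adj p q) : ∃ g : V → ℕ, g q = 0 ∧ g p = L ∧ (∀ x, g x ≤ L) ∧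
      ∀ x y, G.Adj x y → s(x, y) ≠ s(p, q) → g x ≤ g y + 1 := by
  classical
  set G' := G.deleteEdges {s(p, q)} with hG'
  have hne : ∀ x, min (G'.edist q x) (L : ℕ∞) ≠ ⊤ := fun x =>
    ne_top_of_le_ne_top (ENat.natCast_ne_top L) (min_le_right _ _)
  have hp : (L : ℕ∞) ≤ G'.edist q p := by
    by_cases ht : G'.edist q p = ⊤
    · rw [ht]; exact le_top
    obtain ⟨w, hw⟩ := exists_walk_of_edist_ne_top ht
    have hsub : ∀ e ∈ w.bypass.edges, e ∈ G.edgeSet := fun e he =>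
      edgeSet_mono (G.deleteEdges_le _) (w.bypass.edges_subset_edgeSet he)
    have hc : (Walk.cons h (w.bypass.transfer G hsub)).IsCycle := by
      rw [Walk.cons_isCycle_iff]
      refine ⟨w.bypass_isPath.transfer _, fun he => ?_⟩
      rw [Walk.edges_transfer] at he
      have := w.bypass.edges_subset_edgeSet he
      simp [hG'] at this
    have h1 := hg.trans (egirth_le_length hc)
    rw [Walk.length_cons, Walk.length_transfer] at h1
    have h2 : L + 1 ≤ w.bypass.length + 1 := by exact_mod_cast h1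
    have h3 := w.length_bypass_le
    rw [← hw]
    exact_mod_cast (by omega : L ≤ w.length)
  refine ⟨fun x => (min (G'.edist q x) (L : ℕ∞)).toNat, by simp, by simp [min_eq_right hp],
    fun x => ?_, fun x y hxy he => ?_⟩
  · have := ENat.toNat_le_toNat (min_le_right (G'.edist q x) (L : ℕ∞)) (ENat.natCast_ne_top L)
    simpa using this
  · have ha : G'.Adj y x := by
      rw [hG', deleteEdges_adj]
      refine ⟨hxy.symm, ?_⟩
      rw [Set.mem_singleton_iff, Sym2.eq_swap]; exact he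
    have h1 : G'.edist q x ≤ G'.edist q y + 1 := by
      have := G'.edist_triangle (u := q) (v := y) (w := x)
      rwa [edist_eq_one_iff_adj.2 ha] at this
    have h2 : min (G'.edist q x) (L : ℕ∞) ≤ min (G'.edist q y) (L : ℕ∞) + 1 := by
      rcases le_total (G'.edist q y) (L : ℕ∞) with a | a
      · rw [min_eq_left a]; exact (min_le_left _ _).trans h1
      · rw [min_eq_right a]; exact (min_le_right _ _).trans le_self_add
    have h3 : ((min (G'.edist q x) (L : ℕ∞)).toNat : ℕ∞)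
        ≤ ((min (G'.edist q y) (L : ℕ∞)).toNat : ℕ∞) + 1 := by
      rw [ENat.coe_toNat (hne x), ENat.coe_toNat (hne y)]; exact h2
    exact_mod_cast h3

noncomputable def nn (i : ℕ × ℕ) : ℕ :=
  (Pool.Agent.H7.Erdos.exists_girth_chrom (i.1 + 1) (i.2 + 1)).choose
noncomputable def GG (i : ℕ × ℕ) : SimpleGraph (Fin (nn i)) :=
  (Pool.Agent.H7.Erdos.exists_girth_chrom (i.1 + 1) (i.2 + 1)).choose_spec.choose
lemma GG_spec (i : ℕ × ℕ) : ((i.1 + 1 : ℕ) : ℕ∞) ≤ (GG i).egirth ∧ ¬ (GG i).Colorable (i.2 + 1) :=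
  (Pool.Agent.H7.Erdos.exists_girth_chrom (i.1 + 1) (i.2 + 1)).choose_spec.choose_spec

lemma mono_edge (i : ℕ × ℕ) {C : Type} [Fintype C] (hC : Fintype.card C ≤ i.2 + 1)
    (col : Fin (nn i) → C) : ∃ p q, (GG i).Adj p q ∧ col p = col q := by
  by_contra hn
  push Not at hn
  exact (GG_spec i).2 ((Coloring.mk col fun {v w} h => hn v w h).colorable.mono hC)

abbrev MM : Type := Σ i : ℕ × ℕ, Fin (nn i)

def ht (a : MM) : ℝ := (a.1.1 : ℝ) + 1

lemma ht_pos (a : MM) : 1 ≤ ht a := by unfold ht; have : (0:ℝ) ≤ a.1.1 := Nat.cast_nonneg _; linarith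

def Adm (u : MM → ℝ) : Prop :=
  (∀ a b, |u a - u b| ≤ ht a + ht b) ∧
    ∀ i x y, (GG i).Adj x y → |u ⟨i, x⟩ - u ⟨i, y⟩| ≤ 1

noncomputable def dd (a b : MM) : ℝ := sSup {r | ∃ u, Adm u ∧ r = |u a - u b|}

lemma adm_zero : Adm fun _ => 0 :=
  ⟨fun a b => by have := ht_pos a; have := ht_pos b; simp; linarith, fun _ _ _ _ => by simp⟩

lemma le_dd {u : MM → ℝ} (hu : Adm u) (a b : MM) : |u a - u b| ≤ dd a b :=
  le_csSup ⟨ht a + ht b, by rintro r ⟨u, hu, rfl⟩; exact hu.1 a b⟩ ⟨u, hu, rfl⟩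

lemma dd_le {a b : MM} {c : ℝ} (h : ∀ u, Adm u → |u a - u b| ≤ c) : dd a b ≤ c :=
  csSup_le ⟨_, _, adm_zero, rfl⟩ (by rintro r ⟨u, hu, rfl⟩; exact h u hu)

lemma one_le_dd {a b : MM} (h : a ≠ b) : 1 ≤ dd a b := by
  classical
  have hb : ∀ x y : MM, |(if x = a then (1:ℝ) else 0) - (if y = a then 1 else 0)| ≤ 1 := by
    intro x y; split_ifs <;> simp
  have := le_dd (u := fun x => if x = a then 1 else 0)
    ⟨fun x y => by have := ht_pos x; have := ht_pos y; linarith [hb x y], fun i x y _ => hb _ _⟩ a b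
  simpa [h.symm] using this

@[instance_reducible] noncomputable def met : MetricSpace MM where
  dist := dd
  dist_self a := le_antisymm (dd_le fun u _ => by simp) (by simpa using le_dd adm_zero a a)
  dist_comm a b := le_antisymm (dd_le fun u hu => by rw [abs_sub_comm]; exact le_dd hu b a)
    (dd_le fun u hu => by rw [abs_sub_comm]; exact le_dd hu a b)
  dist_triangle a b c := dd_le fun u hu =>
    (abs_sub_le _ (u b) _).trans (add_le_add (le_dd hu a b) (le_dd hu b c))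
  eq_of_dist_eq_zero := by
    intro a b h
    by_contra hn
    have := one_le_dd hn
    have h' : dd a b = 0 := h
    linarith

lemma pt (i : ℕ × ℕ) : Nonempty (Fin (nn i)) := by
  obtain ⟨p, -⟩ := mono_edge i (C := Unit) (by simp) fun _ => ()
  exact ⟨p⟩

theorem result : ∃ (M : Type) (_ : MetricSpace M) (o : M),
    ¬ Bornology.IsBounded (Set.univ : Set M) ∧
    (∃ r : ℝ, 0 < r ∧ ∀ x y : M, x ≠ y → r ≤ dist x y) ∧ ASQ (L0 o) := by
  classical
  letI := met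
  have hd : ∀ a b : MM, dist a b = dd a b := fun _ _ => rfl
  obtain ⟨x0⟩ := pt (0, 0)
  refine ⟨MM, met, ⟨(0, 0), x0⟩, ?_, ⟨1, one_pos, fun x y h => one_le_dd h⟩, ?_⟩
  · intro hb
    obtain ⟨C, hC⟩ := Metric.isBounded_iff.1 hb
    obtain ⟨n, hn⟩ := exists_nat_gt C
    obtain ⟨y⟩ := pt (n, 0)
    have h1 : Adm ht := ⟨fun a b => by
      have := ht_pos a; have := ht_pos b; rw [abs_le]; constructor <;> linarith,
      fun i x y _ => by simp [ht]⟩
    have h2 := le_dd h1 ⟨(n, 0), y⟩ ⟨(0, 0), x0⟩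
    have h3 := hC (Set.mem_univ (⟨(n, 0), y⟩ : MM)) (Set.mem_univ (⟨(0, 0), x0⟩ : MM))
    rw [hd] at h3
    simp [ht] at h2
    linarith
  intro k f hf ε hε
  obtain ⟨o, ho⟩ : ∃ o : MM, o = ⟨(0, 0), x0⟩ := ⟨_, rfl⟩
  revert f
  rw [← ho]
  intro f hf
  obtain ⟨L, hL⟩ := exists_nat_gt (1 / ε)
  have hL0 : (0:ℝ) < L := lt_trans (by positivity) hL
  have hLε : 1 / (L:ℝ) ≤ ε := by
    rw [div_lt_iff₀ hε] at hL; rw [div_le_iff₀ hL0]; linarith
  have hL1 : 1 ≤ ε * L := by rw [div_le_iff₀ hL0] at hLε; linarith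
  set i : ℕ × ℕ := (L, (L + 1) ^ k) with hi
  have hfl : ∀ j a b, |fn (f j) a - fn (f j) b| ≤ dd a b := fun j a b => by
    have := le_norm (f j) a b
    rwa [hf j, one_mul] at this
  have hedge : ∀ i x y, (GG i).Adj x y → dd ⟨i, x⟩ ⟨i, y⟩ ≤ 1 := fun i x y h =>
    dd_le fun u hu => hu.2 i x y h
  obtain ⟨p, q, hpq, hcol⟩ := mono_edge i (C := Fin k → ZMod (L + 1)) (by simp [hi])
    (fun x j => ((⌊(L:ℝ) * fn (f j) ⟨i, x⟩⌋ : ℤ) : ZMod (L + 1)))
  have hflat : ∀ j, |fn (f j) ⟨i, p⟩ - fn (f j) ⟨i, q⟩| ≤ ε := by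
    intro j
    have h1 := congrFun hcol j
    rw [ZMod.intCast_eq_intCast_iff_dvd_sub] at h1
    have h2 := abs_le.1 ((hfl j ⟨i, p⟩ ⟨i, q⟩).trans (hedge i p q hpq))
    obtain ⟨a, ha⟩ : ∃ a, a = fn (f j) ⟨i, p⟩ := ⟨_, rfl⟩
    obtain ⟨b, hb⟩ : ∃ b, b = fn (f j) ⟨i, q⟩ := ⟨_, rfl⟩
    rw [← ha, ← hb] at h1 h2 ⊢
    have a1 := Int.floor_le ((L:ℝ) * a)
    have a2 := Int.lt_floor_add_one ((L:ℝ) * a)
    have b1 := Int.floor_le ((L:ℝ) * b)
    have b2 := Int.lt_floor_add_one ((L:ℝ) * b)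
    have h3 : ⌊(L:ℝ) * b⌋ - ⌊(L:ℝ) * a⌋ = 0 := by
      refine Int.eq_zero_of_abs_lt_dvd h1 ?_
      rw [abs_lt]
      constructor
      · have : -((L:ℝ) + 1) < (⌊(L:ℝ) * b⌋ : ℝ) - ⌊(L:ℝ) * a⌋ := by nlinarith [h2.1, h2.2]
        exact_mod_cast this
      · have : (⌊(L:ℝ) * b⌋ : ℝ) - ⌊(L:ℝ) * a⌋ < (L:ℝ) + 1 := by nlinarith [h2.1, h2.2]
        exact_mod_cast this
    have h4 : (⌊(L:ℝ) * b⌋ : ℝ) = ⌊(L:ℝ) * a⌋ := by exact_mod_cast sub_eq_zero.1 h3
    rw [abs_le]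
    constructor <;> nlinarith
  obtain ⟨g0, hq, hp, hle, hlip⟩ := pot (GG i) L (GG_spec i).1 hpq
  obtain ⟨gg, hgi, hgo⟩ : ∃ gg : ∀ j : ℕ × ℕ, Fin (nn j) → ℝ,
      gg i = (fun x => (g0 x : ℝ) / L) ∧ ∀ j, j ≠ i → gg j = fun _ => 0 :=
    ⟨Function.update (fun _ _ => 0) i (fun x => (g0 x : ℝ) / L), Function.update_self .., fun j hj =>
      Function.update_of_ne hj ..⟩
  set g : MM → ℝ := fun a => gg a.1 a.2 with hg
  have hg01 : ∀ a, 0 ≤ g a ∧ g a ≤ 1 := by
    rintro ⟨j, x⟩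
    by_cases hj : j = i
    · subst hj
      simp only [hg, hgi]
      refine ⟨by positivity, ?_⟩
      rw [div_le_one hL0]; exact_mod_cast hle x
    · simp [hg, hgo j hj]
  have hgd : ∀ a b, |g a - g b| ≤ 1 := fun a b => by
    have := hg01 a; have := hg01 b; rw [abs_le]; constructor <;> linarith [this.1, this.2]
  have hgh : ∀ a, g a ≤ ε * ht a := by
    rintro ⟨j, x⟩
    by_cases hj : j = i
    · subst hj
      have := (hg01 ⟨i, x⟩).2
      have e : ht ⟨i, x⟩ = L + 1 := rfl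
      rw [e]; nlinarith
    · have := ht_pos ⟨j, x⟩
      simp only [hg, hgo j hj]; positivity
  have hge : ∀ j x y, (GG j).Adj x y → |g ⟨j, x⟩ - g ⟨j, y⟩| ≤ ε ∨
      ∀ l, |fn (f l) ⟨j, x⟩ - fn (f l) ⟨j, y⟩| ≤ ε := by
    intro j x y hxy
    by_cases hj : j = i
    · subst hj
      by_cases he : s(x, y) = s(p, q)
      · right
        intro l
        rcases Sym2.eq_iff.1 he with ⟨rfl, rfl⟩ | ⟨rfl, rfl⟩
        · exact hflat l
        · rw [abs_sub_comm]; exact hflat l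
      · left
        have a1 : (g0 x : ℝ) ≤ g0 y + 1 := by exact_mod_cast hlip x y hxy he
        have a2 : (g0 y : ℝ) ≤ g0 x + 1 := by
          exact_mod_cast hlip y x hxy.symm (by rwa [Sym2.eq_swap])
        simp only [hg, hgi]
        rw [← sub_div, abs_div, abs_of_pos hL0]
        refine le_trans (div_le_div_of_nonneg_right ?_ hL0.le) hLε
        rw [abs_le]; constructor <;> linarith
    · left; simp [hg, hgo j hj, hε.le]
  have hadm : Adm g := ⟨fun a b => by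
    have := ht_pos a; have := ht_pos b; linarith [hgd a b], fun j x y _ => hgd _ _⟩
  set G : L0 o := mk o (fun a => g a - g o) (sub_self _) 1 zero_le_one (fun a b => by
    rw [one_mul, sub_sub_sub_cancel_right]; exact le_dd hadm a b) with hG
  have hGf : ∀ a, fn G a = g a - g o := fun _ => rfl
  have hG1 : 1 ≤ ‖G‖ := by
    have h1 := le_norm G ⟨i, p⟩ ⟨i, q⟩
    rw [hGf, hGf, sub_sub_sub_cancel_right, hd] at h1
    have e1 : g ⟨i, p⟩ = 1 := by simp only [hg, hgi, hp]; exact div_self hL0.ne'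
    have e2 : g ⟨i, q⟩ = 0 := by simp [hg, hgi, hq]
    rw [e1, e2] at h1
    have h2 := mul_le_mul_of_nonneg_left (hedge i p q hpq) (norm_nonneg G)
    simp at h1
    linarith
  have key : ∀ l (s : ℝ), |s| = 1 → ‖f l + s • G‖ ≤ 1 + ε := by
    intro l s hs
    have hε1 : 0 < 1 + ε := by linarith
    have hsum : ∀ a b, |(fn (f l) a + s * g a) / (1 + ε) - (fn (f l) b + s * g b) / (1 + ε)|
        ≤ (|fn (f l) a - fn (f l) b| + |g a - g b|) / (1 + ε) := by
      intro a b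
      rw [← sub_div, abs_div, abs_of_pos hε1]
      refine div_le_div_of_nonneg_right ?_ hε1.le
      have e : fn (f l) a + s * g a - (fn (f l) b + s * g b)
          = (fn (f l) a - fn (f l) b) + s * (g a - g b) := by ring
      rw [e]
      refine (abs_add_le _ _).trans ?_
      rw [abs_mul, hs, one_mul]
    have hu : Adm fun a => (fn (f l) a + s * g a) / (1 + ε) := by
      refine ⟨fun a b => (hsum a b).trans ?_, fun j x y hxy => (hsum _ _).trans ?_⟩
      · rw [div_le_iff₀ hε1]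
        have a1 := (hfl l a b).trans (dd_le fun u hu => hu.1 a b)
        have a2 : |g a - g b| ≤ ε * ht a + ε * ht b := by
          have := hgh a; have := hgh b; have := (hg01 a).1; have := (hg01 b).1
          rw [abs_le]; constructor <;> linarith
        nlinarith
      · rw [div_le_one hε1]
        have a1 := (hfl l ⟨j, x⟩ ⟨j, y⟩).trans (hedge j x y hxy)
        rcases hge j x y hxy with a | a
        · linarith
        · linarith [a l, hgd ⟨j, x⟩ ⟨j, y⟩]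
    refine norm_le _ hε1.le fun a b => ?_
    have h1 := le_dd hu a b
    rw [← sub_div, abs_div, abs_of_pos hε1, div_le_iff₀ hε1] at h1
    have e : fn (f l + s • G) a - fn (f l + s • G) b
        = fn (f l) a + s * g a - (fn (f l) b + s * g b) := by
      simp only [fn_add, fn_smul, Pi.add_apply, Pi.smul_apply, smul_eq_mul, hGf]; ring
    rw [e, hd]
    linarith
  have hGp : 0 < ‖G‖ := by linarith
  have ht1 : ‖G‖⁻¹ ≤ 1 := inv_le_one_of_one_le₀ hG1
  have ht0 : 0 < ‖G‖⁻¹ := inv_pos.2 hGp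
  have fin : ∀ l (s : ℝ), |s| = 1 → ‖f l + s • (‖G‖⁻¹ • G)‖ ≤ 1 + ε := by
    intro l s hs
    have e : f l + s • (‖G‖⁻¹ • G) = ‖G‖⁻¹ • (f l + s • G) + (1 - ‖G‖⁻¹) • f l := by
      module
    rw [e]
    refine (norm_add_le _ _).trans ?_
    rw [norm_smul, norm_smul, hf l, Real.norm_eq_abs, Real.norm_eq_abs, abs_of_pos ht0,
      abs_of_nonneg (by linarith)]
    have := mul_le_mul_of_nonneg_left (key l s hs) ht0.le
    nlinarith
  refine ⟨‖G‖⁻¹ • G, ?_, fun l => ⟨?_, ?_⟩⟩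
  · rw [norm_smul, Real.norm_eq_abs, abs_of_pos ht0, inv_mul_cancel₀ hGp.ne']
  · simpa using fin l 1 abs_one
  · have := fin l (-1) (by simp)
    rwa [neg_one_smul, ← sub_eq_add_neg] at this

end Pool.Agent.Results.MP_fe8a5b_an.Asq
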